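import Mathlib
import Pool.Agent.R255.CliffCert

set_option autoImplicit false
set_option linter.unusedVariables false
set_option linter.unusedSimpArgs false

open Matrix Kronecker Pool.Agent.R255.CliffCert

namespace Pool.Agent.Results.MP_fa5fea_an.FivePoints

/-- `γ` is an irreducible Hermitian representation of the Clifford relations
`γ_j γ_l + γ_l γ_j = 2 δ_{jl} I_k`. -/
structure IsIrredClifford {d k : ℕ} (γ : Fin d → Matrix (Fin k) (Fin k) ℂ) : Prop where
  pos : 0 < k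
  herm : ∀ j, (γ j).IsHermitian
  rel : ∀ j l, γ j * γ l + γ l * γ j = (if j = l then (2 : ℂ) else 0) • (1 : Matrix (Fin k) (Fin k) ℂ)
  irred : ∀ W : Submodule ℂ (Fin k → ℂ), (∀ j, ∀ w ∈ W, γ j *ᵥ w ∈ W) → W = ⊥ ∨ W = ⊤

/-- The spectral localizer `L_λ = ∑_j (A_j - λ_j I_n) ⊗ γ_j`. -/
noncomputable def localizer {n d k : ℕ} (γ : Fin d → Matrix (Fin k) (Fin k) ℂ)
    (A : Fin d → Matrix (Fin n) (Fin n) ℂ) (lam : Fin d → ℝ) :
    Matrix (Fin n × Fin k) (Fin n × Fin k) ℂ :=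
  ∑ j, (A j - (lam j : ℂ) • (1 : Matrix (Fin n) (Fin n) ℂ)) ⊗ₖ γ j

/-- The Clifford spectrum: the set of `λ ∈ ℝ^d` at which `L_λ` is not invertible. -/
def cliffordSpectrum {n d k : ℕ} (γ : Fin d → Matrix (Fin k) (Fin k) ℂ)
    (A : Fin d → Matrix (Fin n) (Fin n) ℂ) : Set (Fin d → ℝ) :=
  {lam | ¬ IsUnit (localizer γ A lam)}

/-- The assertion of Q1: a finite Clifford spectrum of `n × n` Hermitian matrices has at most `n`
elements. -/
def Q1 : Prop :=
  ∀ (n d k : ℕ), 1 ≤ n → 1 ≤ d → ∀ γ : Fin d → Matrix (Fin k) (Fin k) ℂ, IsIrredClifford γ →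
    ∀ A : Fin d → Matrix (Fin n) (Fin n) ℂ, (∀ j, (A j).IsHermitian) →
      (cliffordSpectrum γ A).Finite → (cliffordSpectrum γ A).ncard ≤ n

/-- The Pauli matrices. -/
noncomputable def pauli : Fin 3 → Matrix (Fin 2) (Fin 2) ℂ :=
  ![!![0, 1; 1, 0], !![0, -Complex.I; Complex.I, 0], !![1, 0; 0, -1]]

/-- The three slices of the Hessian of `x y z`. -/
noncomputable def T : Fin 3 → Matrix (Fin 3) (Fin 3) ℂ :=
  ![!![0, 0, 0; 0, 0, 1; 0, 1, 0], !![0, 0, 1; 0, 0, 0; 1, 0, 0], !![0, 1, 0; 1, 0, 0; 0, 0, 0]]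

theorem pauli_irred : IsIrredClifford pauli where
  pos := by norm_num
  herm := by
    intro j
    fin_cases j <;>
      (ext a b; fin_cases a <;> fin_cases b <;> simp [pauli, Matrix.conjTranspose_apply])
  rel := by
    intro j l
    fin_cases j <;> fin_cases l <;>
      (ext a b; fin_cases a <;> fin_cases b <;>
        simp [pauli, Matrix.mul_apply, Fin.sum_univ_two] <;> norm_num)
  irred := by
    intro W hW
    by_cases h : W = ⊥
    · exact Or.inl h
    right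
    obtain ⟨w, hw, hw0⟩ := (Submodule.ne_bot_iff W).1 h
    have hz : pauli 2 *ᵥ w ∈ W := hW 2 w hw
    have e2 : pauli 2 *ᵥ w = ![w 0, - w 1] := by
      ext a
      fin_cases a <;> simp [pauli, Matrix.mulVec, dotProduct, Fin.sum_univ_two]
    have key : ∀ u : Fin 2 → ℂ, u ∈ W → pauli 0 *ᵥ u ∈ W := fun u hu => hW 0 u hu
    have e0 : ∀ a b : ℂ, pauli 0 *ᵥ ![a, b] = ![b, a] := by
      intro a b
      ext i
      fin_cases i <;> simp [pauli, Matrix.mulVec, dotProduct, Fin.sum_univ_two]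
    have h0 : ![w 0, 0] ∈ W := by
      have h1 : (1 / 2 : ℂ) • (w + pauli 2 *ᵥ w) ∈ W := W.smul_mem _ (W.add_mem hw hz)
      rw [e2] at h1
      convert h1 using 1
      ext a
      fin_cases a
      · simp [Matrix.vecHead]
        ring
      · simp [Matrix.vecHead, Matrix.vecTail]
    have h1' : ![0, w 1] ∈ W := by
      have h1 : w - ![w 0, 0] ∈ W := W.sub_mem hw h0
      convert h1 using 1
      ext a
      fin_cases a <;> simp
    have hbasis : ![(1 : ℂ), 0] ∈ W ∧ ![(0 : ℂ), 1] ∈ W := by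
      by_cases hw00 : w 0 = 0
      · have hw1 : w 1 ≠ 0 := by
          intro h1
          apply hw0
          ext a
          fin_cases a
          · exact hw00
          · exact h1
        have h2 : (w 1)⁻¹ • ![0, w 1] ∈ W := W.smul_mem _ h1'
        have h3 : ![(0 : ℂ), 1] ∈ W := by
          convert h2 using 1
          ext a
          fin_cases a <;> simp [hw1]
        refine ⟨?_, h3⟩
        have h4 := key _ h3
        rw [e0] at h4
        exact h4
      · have h2 : (w 0)⁻¹ • ![w 0, 0] ∈ W := W.smul_mem _ h0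
        have h3 : ![(1 : ℂ), 0] ∈ W := by
          convert h2 using 1
          ext a
          fin_cases a <;> simp [hw00]
        refine ⟨h3, ?_⟩
        have h4 := key _ h3
        rw [e0] at h4
        exact h4
    rw [eq_top_iff]
    intro u _
    have : u = u 0 • ![(1 : ℂ), 0] + u 1 • ![(0 : ℂ), 1] := by
      ext a
      fin_cases a <;> simp
    rw [this]
    exact W.add_mem (W.smul_mem _ hbasis.1) (W.smul_mem _ hbasis.2)

theorem T_herm : ∀ j, (T j).IsHermitian := by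
  intro j
  fin_cases j <;>
    (ext a b; fin_cases a <;> fin_cases b <;> simp [T, Matrix.conjTranspose_apply])

theorem mem_iff {n d k : ℕ} (γ : Fin d → Matrix (Fin k) (Fin k) ℂ)
    (A : Fin d → Matrix (Fin n) (Fin n) ℂ) (lam : Fin d → ℝ) :
    lam ∈ cliffordSpectrum γ A ↔ ∃ v, v ≠ 0 ∧ localizer γ A lam *ᵥ v = 0 := by
  unfold cliffordSpectrum
  rw [Set.mem_ofPred_eq, Matrix.isUnit_iff_isUnit_det, isUnit_iff_ne_zero, not_not,
    ← Matrix.exists_mulVec_eq_zero_iff]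

/-- explicit form of the localizer -/
theorem loc_apply (lam : Fin 3 → ℝ) (v : Fin 3 × Fin 2 → ℂ) (i : Fin 3) (s : Fin 2) :
    (localizer pauli T lam *ᵥ v) (i, s) =
      ∑ k : Fin 3, ∑ t : Fin 2, (∑ j, (T j i k - (lam j : ℂ) * (if i = k then 1 else 0)) * pauli j s t) * v (k, t) := by
  unfold localizer
  rw [Matrix.mulVec, dotProduct, Fintype.sum_prod_type]
  apply Finset.sum_congr rfl
  intro k _
  apply Finset.sum_congr rfl
  intro t _
  rw [Matrix.sum_apply]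
  simp only [Matrix.kroneckerMap_apply, Matrix.sub_apply, Matrix.smul_apply, Matrix.one_apply,
    smul_eq_mul]


theorem inj (lam : Fin 3 → ℝ) (v : Fin 3 × Fin 2 → ℂ) (h : localizer pauli T lam *ᵥ v = 0)
    (hP : P (lam 0) (lam 1) (lam 2) ≠ 0) : v = 0 := by
  have E : ∀ i s, ∑ k : Fin 3, ∑ t : Fin 2,
      (∑ j, (T j i k - (lam j : ℂ) * (if i = k then 1 else 0)) * pauli j s t) * v (k, t) = 0 := by
    intro i s
    rw [← loc_apply, h]
    rfl
  have h00 := E 0 0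
  have h01 := E 0 1
  have h10 := E 1 0
  have h11 := E 1 1
  have h20 := E 2 0
  have h21 := E 2 1
  simp [T, pauli, Fin.sum_univ_three, Fin.sum_univ_two] at h00 h01 h10 h11 h20 h21
  have hr0 := congrArg Complex.re h00
  have hi0 := congrArg Complex.im h00
  have hr1 := congrArg Complex.re h01
  have hi1 := congrArg Complex.im h01
  have hr2 := congrArg Complex.re h10
  have hi2 := congrArg Complex.im h10
  have hr3 := congrArg Complex.re h11
  have hi3 := congrArg Complex.im h11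
  have hr4 := congrArg Complex.re h20
  have hi4 := congrArg Complex.im h20
  have hr5 := congrArg Complex.re h21
  have hi5 := congrArg Complex.im h21
  simp at hr0 hi0 hr1 hi1 hr2 hi2 hr3 hi3 hr4 hi4 hr5 hi5
  have key := certs (x := lam 0) (y := lam 1) (z := lam 2) (a0 := (v (0, 0)).re) (b0 := (v (0, 0)).im) (c0 := (v (0, 1)).re) (d0 := (v (0, 1)).im) (a1 := (v (1, 0)).re) (b1 := (v (1, 0)).im) (c1 := (v (1, 1)).re) (d1 := (v (1, 1)).im) (a2 := (v (2, 0)).re) (b2 := (v (2, 0)).im) (c2 := (v (2, 1)).re) (d2 := (v (2, 1)).im)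
    (by linear_combination hr0) (by linear_combination hi0)
    (by linear_combination hr1) (by linear_combination hi1)
    (by linear_combination hr2) (by linear_combination hi2)
    (by linear_combination hr3) (by linear_combination hi3)
    (by linear_combination hr4) (by linear_combination hi4)
    (by linear_combination hr5) (by linear_combination hi5)
  obtain ⟨⟨k1, k2⟩, ⟨k3, k4⟩, ⟨k5, k6⟩, ⟨k7, k8⟩, ⟨k9, k10⟩, ⟨k11, k12⟩⟩ := key
  ext ⟨i, s⟩
  fin_cases i <;> fin_cases s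
  · exact Complex.ext ((mul_eq_zero.1 k1).resolve_left hP) ((mul_eq_zero.1 k2).resolve_left hP)
  · exact Complex.ext ((mul_eq_zero.1 k3).resolve_left hP) ((mul_eq_zero.1 k4).resolve_left hP)
  · exact Complex.ext ((mul_eq_zero.1 k5).resolve_left hP) ((mul_eq_zero.1 k6).resolve_left hP)
  · exact Complex.ext ((mul_eq_zero.1 k7).resolve_left hP) ((mul_eq_zero.1 k8).resolve_left hP)
  · exact Complex.ext ((mul_eq_zero.1 k9).resolve_left hP) ((mul_eq_zero.1 k10).resolve_left hP)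
  · exact Complex.ext ((mul_eq_zero.1 k11).resolve_left hP) ((mul_eq_zero.1 k12).resolve_left hP)

/-- the five points -/
noncomputable def S5 : Finset (Fin 3 → ℝ) :=
  {![0, 0, 0], ![1 / 3, 1 / 3, 1 / 3], ![1 / 3, -1 / 3, -1 / 3], ![-1 / 3, 1 / 3, -1 / 3],
    ![-1 / 3, -1 / 3, 1 / 3]}

theorem P_zero {x y z : ℝ} (h : P x y z = 0) : ![x, y, z] ∈ S5 := by
  unfold P at h
  set s := x ^ 2 + y ^ 2 + z ^ 2 with hs
  have hs0 : 0 ≤ s := by positivity
  rcases eq_or_lt_of_le hs0 with h0 | hpos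
  · have hx : x = 0 := by nlinarith [sq_nonneg x, sq_nonneg y, sq_nonneg z]
    have hy : y = 0 := by nlinarith [sq_nonneg x, sq_nonneg y, sq_nonneg z]
    have hz : z = 0 := by nlinarith [sq_nonneg x, sq_nonneg y, sq_nonneg z]
    subst hx hy hz
    simp [S5]
  · have h1 : s * (s + 1) ^ 2 = 16 * (x * y * z) := by linarith
    -- AM-GM
    have hamgm : 27 * (x * y * z) ^ 2 ≤ s ^ 3 := by
      have : s ^ 3 - 27 * (x * y * z) ^ 2 = (x ^ 2 + y ^ 2 + z ^ 2) / 2 * ((x ^ 2 - y ^ 2) ^ 2 + (y ^ 2 - z ^ 2) ^ 2 + (z ^ 2 - x ^ 2) ^ 2)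
          + 3 * (x ^ 2 * (y ^ 2 - z ^ 2) ^ 2 + y ^ 2 * (z ^ 2 - x ^ 2) ^ 2 + z ^ 2 * (x ^ 2 - y ^ 2) ^ 2) := by
        rw [hs]; ring
      have h2 : 0 ≤ (x ^ 2 + y ^ 2 + z ^ 2) / 2 * ((x ^ 2 - y ^ 2) ^ 2 + (y ^ 2 - z ^ 2) ^ 2 + (z ^ 2 - x ^ 2) ^ 2)
          + 3 * (x ^ 2 * (y ^ 2 - z ^ 2) ^ 2 + y ^ 2 * (z ^ 2 - x ^ 2) ^ 2 + z ^ 2 * (x ^ 2 - y ^ 2) ^ 2) := by positivity
      linarith
    have hsq : 27 * (s * (s + 1) ^ 2) ^ 2 ≤ 256 * s ^ 3 := by
      rw [h1]; linarith [hamgm, show (16 * (x * y * z)) ^ 2 = 256 * (x * y * z) ^ 2 by ring]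
    have h3 : (s - 1 / 3) ^ 2 * (s ^ 2 + 14 / 3 * s + 9) ≤ 0 := by
      have h4 : 27 * (s ^ 2 * ((s - 1 / 3) ^ 2 * (s ^ 2 + 14 / 3 * s + 9))) ≤ 0 := by
        have : 27 * (s ^ 2 * ((s - 1 / 3) ^ 2 * (s ^ 2 + 14 / 3 * s + 9))) = 27 * (s * (s + 1) ^ 2) ^ 2 - 256 * s ^ 3 := by ring
        linarith
      by_contra hcon
      push Not at hcon
      have : 0 < 27 * (s ^ 2 * ((s - 1 / 3) ^ 2 * (s ^ 2 + 14 / 3 * s + 9))) := by positivity
      linarith
    have hs3 : s = 1 / 3 := by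
      have h5 : 0 < s ^ 2 + 14 / 3 * s + 9 := by positivity
      have h6 : (s - 1 / 3) ^ 2 ≤ 0 := by
        by_contra hcon
        push Not at hcon
        have := mul_pos hcon h5
        linarith
      have h7 : s - 1 / 3 = 0 := by
        have := le_antisymm h6 (sq_nonneg _)
        exact pow_eq_zero_iff (two_ne_zero) |>.1 this
      linarith
    have hxyz : x * y * z = 1 / 27 := by rw [hs3] at h1; linarith
    have heq : (x ^ 2 + y ^ 2 + z ^ 2) / 2 * ((x ^ 2 - y ^ 2) ^ 2 + (y ^ 2 - z ^ 2) ^ 2 + (z ^ 2 - x ^ 2) ^ 2)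
          + 3 * (x ^ 2 * (y ^ 2 - z ^ 2) ^ 2 + y ^ 2 * (z ^ 2 - x ^ 2) ^ 2 + z ^ 2 * (x ^ 2 - y ^ 2) ^ 2) = 0 := by
      have : s ^ 3 - 27 * (x * y * z) ^ 2 = (x ^ 2 + y ^ 2 + z ^ 2) / 2 * ((x ^ 2 - y ^ 2) ^ 2 + (y ^ 2 - z ^ 2) ^ 2 + (z ^ 2 - x ^ 2) ^ 2)
          + 3 * (x ^ 2 * (y ^ 2 - z ^ 2) ^ 2 + y ^ 2 * (z ^ 2 - x ^ 2) ^ 2 + z ^ 2 * (x ^ 2 - y ^ 2) ^ 2) := by
        rw [hs]; ring
      rw [← this, hs3, hxyz]; norm_num
    rw [← hs, hs3] at heq
    have p1 : 0 ≤ x ^ 2 * (y ^ 2 - z ^ 2) ^ 2 := by positivity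
    have p2 : 0 ≤ y ^ 2 * (z ^ 2 - x ^ 2) ^ 2 := by positivity
    have p3 : 0 ≤ z ^ 2 * (x ^ 2 - y ^ 2) ^ 2 := by positivity
    have r1 := sq_nonneg (x ^ 2 - y ^ 2)
    have r2 := sq_nonneg (y ^ 2 - z ^ 2)
    have r3 := sq_nonneg (z ^ 2 - x ^ 2)
    generalize hA : (x ^ 2 - y ^ 2) ^ 2 = Aq at *
    generalize hB : (y ^ 2 - z ^ 2) ^ 2 = Bq at *
    generalize hC : (z ^ 2 - x ^ 2) ^ 2 = Cq at *
    have q1 : Aq = 0 := by linarith
    have q2 : Bq = 0 := by linarith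
    rw [q1] at hA
    rw [q2] at hB
    have q1' : x ^ 2 - y ^ 2 = 0 := pow_eq_zero_iff (two_ne_zero) |>.1 hA
    have q2' : y ^ 2 - z ^ 2 = 0 := pow_eq_zero_iff (two_ne_zero) |>.1 hB
    have hx2 : x ^ 2 = (1 / 3) ^ 2 := by linarith
    have hy2 : y ^ 2 = (1 / 3) ^ 2 := by linarith
    have hz2 : z ^ 2 = (1 / 3) ^ 2 := by linarith
    rcases sq_eq_sq_iff_eq_or_eq_neg.1 hx2 with rfl | rfl <;>
    rcases sq_eq_sq_iff_eq_or_eq_neg.1 hy2 with rfl | rfl <;>
    rcases sq_eq_sq_iff_eq_or_eq_neg.1 hz2 with rfl | rfl <;>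
    first
      | (exfalso; norm_num at hxyz; done)
      | (simp only [S5, Finset.mem_insert, Finset.mem_singleton]; norm_num)

/-- kernel vectors -/
noncomputable def ker (u : Fin 6 → ℂ) : Fin 3 × Fin 2 → ℂ := fun p => u ⟨2 * p.1.1 + p.2.1, by omega⟩

theorem ker_mem (lam : Fin 3 → ℝ) (u : Fin 6 → ℂ) (h4 : u 4 = 1)
    (h : ∀ i s, ∑ k : Fin 3, ∑ t : Fin 2,
      (∑ j, (T j i k - (lam j : ℂ) * (if i = k then 1 else 0)) * pauli j s t) * ker u (k, t) = 0) :
    lam ∈ cliffordSpectrum pauli T := by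
  rw [mem_iff]
  refine ⟨ker u, ?_, ?_⟩
  · intro h0
    have : ker u (2, 0) = 0 := by rw [h0]; rfl
    have h2 : ker u (2, 0) = u 4 := rfl
    rw [h2, h4] at this
    exact one_ne_zero this
  · ext ⟨i, s⟩
    rw [loc_apply, h]
    rfl

theorem mem0 : ![(0 : ℝ), 0, 0] ∈ cliffordSpectrum pauli T := by
  apply ker_mem _ ![0, 1, 0, Complex.I, 1, 0] rfl
  intro i s
  fin_cases i <;> fin_cases s <;>
    simp [T, pauli, ker, Fin.sum_univ_three, Fin.sum_univ_two]

theorem mem1 : ![(1 / 3 : ℝ), 1 / 3, 1 / 3] ∈ cliffordSpectrum pauli T := by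
  apply ker_mem _ ![1 / 2 + 1 / 6 * Complex.I, 5 / 6 + 1 / 6 * Complex.I, 1 / 2 - 1 / 6 * Complex.I, 1 / 6 + 5 / 6 * Complex.I, 1, 0] rfl
  intro i s
  fin_cases i <;> fin_cases s <;>
    (simp [T, pauli, ker, Fin.sum_univ_three, Fin.sum_univ_two]
     apply Complex.ext <;> simp <;> norm_num)

theorem mem2 : ![(1 / 3 : ℝ), -1 / 3, -1 / 3] ∈ cliffordSpectrum pauli T := by
  apply ker_mem _ ![-1 / 2 + 1 / 6 * Complex.I, 5 / 6 - 1 / 6 * Complex.I, 1 / 2 + 1 / 6 * Complex.I, -1 / 6 + 5 / 6 * Complex.I, 1, 0] rfl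
  intro i s
  fin_cases i <;> fin_cases s <;>
    (simp [T, pauli, ker, Fin.sum_univ_three, Fin.sum_univ_two]
     apply Complex.ext <;> simp <;> norm_num)

theorem mem3 : ![(-1 / 3 : ℝ), 1 / 3, -1 / 3] ∈ cliffordSpectrum pauli T := by
  apply ker_mem _ ![1 / 2 - 1 / 6 * Complex.I, 5 / 6 - 1 / 6 * Complex.I, -1 / 2 - 1 / 6 * Complex.I, -1 / 6 + 5 / 6 * Complex.I, 1, 0] rfl
  intro i s
  fin_cases i <;> fin_cases s <;>
    (simp [T, pauli, ker, Fin.sum_univ_three, Fin.sum_univ_two]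
     apply Complex.ext <;> simp <;> norm_num)

theorem mem4 : ![(-1 / 3 : ℝ), -1 / 3, 1 / 3] ∈ cliffordSpectrum pauli T := by
  apply ker_mem _ ![-1 / 2 - 1 / 6 * Complex.I, 5 / 6 + 1 / 6 * Complex.I, -1 / 2 + 1 / 6 * Complex.I, 1 / 6 + 5 / 6 * Complex.I, 1, 0] rfl
  intro i s
  fin_cases i <;> fin_cases s <;>
    (simp [T, pauli, ker, Fin.sum_univ_three, Fin.sum_univ_two]
     apply Complex.ext <;> simp <;> norm_num)

theorem spectrum_eq : cliffordSpectrum pauli T = (S5 : Set (Fin 3 → ℝ)) := by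
  apply Set.Subset.antisymm
  · intro lam hlam
    rw [mem_iff] at hlam
    obtain ⟨v, hv0, hv⟩ := hlam
    have hP : P (lam 0) (lam 1) (lam 2) = 0 := by
      by_contra hP
      exact hv0 (inj lam v hv hP)
    have h := P_zero hP
    have e : ![lam 0, lam 1, lam 2] = lam := by
      ext i
      fin_cases i <;> rfl
    rw [e] at h
    exact h
  · intro lam hlam
    rw [Finset.mem_coe] at hlam
    simp only [S5, Finset.mem_insert, Finset.mem_singleton] at hlam
    rcases hlam with rfl | rfl | rfl | rfl | rfl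
    · exact mem0
    · exact mem1
    · exact mem2
    · exact mem3
    · exact mem4

theorem card_S5 : S5.card = 5 := by
  have key : ∀ a b c a' b' c' : ℝ, (![a, b, c] : Fin 3 → ℝ) = ![a', b', c'] → a = a' ∧ b = b' := by
    intro a b c a' b' c' h
    exact ⟨congrFun h 0, congrFun h 1⟩
  unfold S5
  rw [Finset.card_insert_of_notMem, Finset.card_insert_of_notMem, Finset.card_insert_of_notMem,
    Finset.card_insert_of_notMem, Finset.card_singleton]
  all_goals
    simp only [Finset.mem_insert, Finset.mem_singleton, not_or]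
    try refine ⟨?_, ?_, ?_, ?_⟩
    all_goals try refine ⟨?_, ?_, ?_⟩
    all_goals try refine ⟨?_, ?_⟩
    all_goals
      intro h
      have := key _ _ _ _ _ _ h
      norm_num at this

/-- Full disproof of Q1: three Hermitian `3 × 3` matrices with a Clifford spectrum of exactly five
points. -/
theorem result : ¬ Q1 ∧ (IsIrredClifford pauli ∧ (∀ j, (T j).IsHermitian) ∧
    (cliffordSpectrum pauli T).Finite ∧ (cliffordSpectrum pauli T).ncard = 5) := by
  have h1 : (cliffordSpectrum pauli T).Finite := by rw [spectrum_eq]; exact S5.finite_toSet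
  have h2 : (cliffordSpectrum pauli T).ncard = 5 := by
    rw [spectrum_eq, Set.ncard_coe_finset, card_S5]
  refine ⟨?_, pauli_irred, T_herm, h1, h2⟩
  intro hQ
  have := hQ 3 3 2 (by norm_num) (by norm_num) pauli pauli_irred T T_herm h1
  omega

end Pool.Agent.Results.MP_fa5fea_an.FivePoints
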